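import Pool.Agent.H19.PR.Fin

/-! # Curves of every genus with `p`-torsion `I_{g,1}` in every odd characteristic

Let `k` be an algebraically closed field of characteristic `p > 2` and let `f` be a squarefree
polynomial of degree `2g + 2`. The curve `X : y² = f(x)` has genus `g`, the classes of
`y / x^i`, `1 ≤ i ≤ g`, are a basis of `H¹(X, O)`, and since `y^p = f^((p-1)/2) y` the matrix of the
Frobenius of `H¹(X, O)` in this basis is `H = (c_(pj-i))`, where `c_m` is the coefficient of `x^m`
in `f^((p-1)/2)` (Hasse, Witt, Manin, Yui). The `a`-number of the Jacobian is `g - rank H`, and the
`p`-rank is the rank of `H H^(p) ... H^(p^(g-1))`, where `H^(q)` is obtained by raising the entries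
to the power `q`.

**Theorem.** For all odd primes `p` and all `g ≥ 1` there is a hyperelliptic curve of genus `g` over
`k` with `p`-rank `0` and `a`-number `1`, that is with `p`-torsion `I_{g,1}`.

Proof by induction on `g`, starting with a supersingular elliptic curve. Let `y² = f(x)` be such a
curve of genus `g` and let `ω` be the exact regular differential form. It vanishes in at most
`2g - 2` points, so there is a branch point, say `x = 0`, at which `ω` does not vanish. Then
the Frobenius of `H¹` of the curve `y² = x² f(x)` with a cusp at `x = 0`, of arithmetic genus
`g + 1`, is nilpotent of rank `g` (`cusp_good`). The deformations of `x² f(x)` for which the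
Frobenius is nilpotent are given near this point by `g + 1` equations. The deformations which still
have a triple root are given by curves of genus `g` with nilpotent Frobenius, and these form a smooth
space of the expected dimension: its tangent space at `f` is computed by means of `ω` (`surj_dual`).
A double root which is not a triple root gives a nonzero eigenvector (`not_nilpotent_of_double`).
A count of dimensions with Krull's height theorem (`exists_prime`, `eq_vars_of_no_tangent`) shows
that there are deformations with nilpotent Frobenius and without multiple roots. -/

set_option autoImplicit false

namespace Pool.Agent.Results.MP_a82f45_ag.OddCharacteristic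

open Polynomial Pool.Agent.H19.PR

/-- **Every genus and every odd characteristic.** For an odd prime `p`, an algebraically closed
field `k` of characteristic `p` and `g ≥ 1` there is a squarefree polynomial `f` of degree `2g + 2`
such that the Hasse-Witt matrix of the curve `y² = f(x)` has rank `g - 1` (so the `a`-number is `1`)
and the product of its first `g` Frobenius twists is zero (so the `p`-rank is `0`). -/
theorem result (p : ℕ) [Fact p.Prime] (hp : p ≠ 2) (k : Type) [Field k] [IsAlgClosed k]
    [CharP k p] (g : ℕ) (hg : 1 ≤ g) :
    ∃ f : k[X], f.natDegree = 2 * g + 2 ∧ Squarefree f ∧
      (hasseWitt p g f).rank = g - 1 ∧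
      ((List.range g).map fun i => (hasseWitt p g f).map fun x => x ^ p ^ i).prod = 0 := by
  obtain ⟨f, hf⟩ := exists_good (k := k) p hp g hg
  obtain ⟨h1, h2⟩ := good_matrix p g hg f hf
  exact ⟨f, hf.2.1, hf.2.2.1.squarefree, h1, h2⟩

end Pool.Agent.Results.MP_a82f45_ag.OddCharacteristic
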